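import Pool.Agent.helper77.BND.SpecB

/-!
# Project bnd (MP_376aaf_an), row BEX: interpolation of equivalences
-/

set_option autoImplicit false

open scoped Topology Matrix
open Filter Finset

namespace Pool.Agent.BND

open Pool.Agent.CZ Pool.Agent.PV

theorem BEX_inv {ι : Type} [Fintype ι] [DecidableEq ι] (γ : C(unitInterval, Matrix ι ι ℂ))
    (h : ∀ t, IsUnit (γ t)) :
    ∃ γ' : C(unitInterval, Matrix ι ι ℂ), ∀ t, γ t * γ' t = 1 ∧ γ' t * γ t = 1 := by
  have hdet : ∀ t, IsUnit (γ t).det := fun t => (Matrix.isUnit_iff_isUnit_det _).mp (h t)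
  have hcont : Continuous fun t => (γ t)⁻¹ := by
    have h1 : (fun t => (γ t)⁻¹) = fun t => ((γ t).det)⁻¹ • (γ t).adjugate := by
      funext t
      rw [Matrix.inv_def, Ring.inverse_eq_inv']
    rw [h1]
    refine Continuous.smul (Continuous.inv₀ ?_ fun t => (hdet t).ne_zero) ?_
    · exact (map_continuous γ).matrix_det
    · exact (map_continuous γ).matrix_adjugate
  refine ⟨⟨fun t => (γ t)⁻¹, hcont⟩, fun t => ⟨?_, ?_⟩⟩
  · exact Matrix.mul_nonsing_inv _ (hdet t)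
  · exact Matrix.nonsing_inv_mul _ (hdet t)

theorem BEX_aux (hPTH : PTH_stmt)
    (ι : Type) [Fintype ι] [DecidableEq ι] (E : C(unitInterval, Matrix ι ι ℂ))
    (h : ∀ t, E t * E t = E t) :
    ∃ W W' : C(unitInterval, Matrix ι ι ℂ), W 0 = 1 ∧ ∀ t, W' t * W t = 1 ∧ W t * W' t = 1 ∧ E t * W t = W t * E 0 := by
  let i1 : NormedRing (Matrix ι ι ℂ) := Matrix.linftyOpNormedRing
  let i2 : NormedAlgebra ℂ (Matrix ι ι ℂ) := Matrix.linftyOpNormedAlgebra
  have i3 : @CompleteSpace (Matrix ι ι ℂ)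
      (i1.toMetricSpace.toPseudoMetricSpace.toUniformSpace) :=
    (inferInstance : CompleteSpace (ι → ι → ℂ))
  obtain ⟨W, W', h0, hW⟩ := @hPTH (Matrix ι ι ℂ) i1 i2 i3 E h
  exact ⟨W, W', h0, hW⟩

theorem BEX_path (hGLC : GLC_stmt) (r : ℕ) (g g' : Matrix (Fin r) (Fin r) ℂ) (h1 : g * g' = 1)
    (h2 : g' * g = 1) :
    ∃ γ γ' : C(unitInterval, Matrix (Fin r) (Fin r) ℂ), (∀ t, γ t * γ' t = 1 ∧ γ' t * γ t = 1) ∧
      γ 0 = 1 ∧ γ' 0 = 1 ∧ γ 1 = g ∧ γ' 1 = g' := by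
  obtain ⟨δ, hδ, hδ0, hδ1⟩ := hGLC (Fin r) ⟨g, g', h1, h2⟩
  let γ : C(unitInterval, Matrix (Fin r) (Fin r) ℂ) := ⟨fun t => δ (unitInterval.symm t), by fun_prop⟩
  obtain ⟨γ', hγ'⟩ := BEX_inv γ fun t => hδ _
  have e0 : γ 0 = 1 := by
    change δ (unitInterval.symm 0) = 1
    rw [unitInterval.symm_zero, hδ1]
    rfl
  have e1 : γ 1 = g := by
    change δ (unitInterval.symm 1) = g
    rw [unitInterval.symm_one, hδ0]
  refine ⟨γ, γ', hγ', e0, ?_, e1, ?_⟩
  · have h3 := (hγ' 0).1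
    rw [e0, one_mul] at h3
    exact h3
  · have h3 := (hγ' 1).1
    rw [e1] at h3
    calc γ' 1 = (g' * g) * γ' 1 := by rw [h2, one_mul]
      _ = g' * (g * γ' 1) := by rw [mul_assoc]
      _ = g' := by rw [h3, mul_one]

theorem BEX (hPTH : PTH_stmt) (hTRI : TRI_stmt) (hGLC : GLC_stmt) : BEX_stmt := by
  intro ι κ _ _ _ _ E F hE hF x₀ x₁ y₀ y₁ hxy₀ hyx₀ hxy₁ hyx₁ hEx₀ hFy₀ hEx₁ hFy₁
  obtain ⟨W, W', hW0, hW⟩ := BEX_aux hPTH ι E hE
  obtain ⟨Z, Z', hZ0, hZ⟩ := BEX_aux hPTH κ F hF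
  obtain ⟨r, a, b, -, hab, hba⟩ := hTRI κ (F 0) (hF 0)
  have hW'0 : W' 0 = 1 := by
    have := (hW 0).1
    rwa [hW0, mul_one] at this
  have hZ'0 : Z' 0 = 1 := by
    have := (hZ 0).1
    rwa [hZ0, mul_one] at this
  have hx₀F : x₀ * F 0 = x₀ := by rw [← hyx₀, ← Matrix.mul_assoc, hxy₀, hEx₀]
  have hy₀E : y₀ * E 0 = y₀ := by rw [← hxy₀, ← Matrix.mul_assoc, hyx₀, hFy₀]
  have hx₁F : x₁ * F 1 = x₁ := by rw [← hyx₁, ← Matrix.mul_assoc, hxy₁, hEx₁]
  have hy₁E : y₁ * E 1 = y₁ := by rw [← hxy₁, ← Matrix.mul_assoc, hyx₁, hFy₁]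
  have hFa : F 0 * a = a := by rw [← hab, Matrix.mul_assoc, hba, Matrix.mul_one]
  have hbF : b * F 0 = b := by rw [← hab, ← Matrix.mul_assoc, hba, Matrix.one_mul]
  have hEW : ∀ t, W t * E 0 * W' t = E t := by
    intro t
    rw [← (hW t).2.2, Matrix.mul_assoc, (hW t).2.1, Matrix.mul_one]
  have hFZ : ∀ t, Z t * F 0 * Z' t = F t := by
    intro t
    rw [← (hZ t).2.2, Matrix.mul_assoc, (hZ t).2.1, Matrix.mul_one]
  have hEW' : W' 1 * E 1 * W 1 = E 0 := by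
    rw [Matrix.mul_assoc, (hW 1).2.2, ← Matrix.mul_assoc, (hW 1).1, Matrix.one_mul]
  have hFZ' : Z' 1 * F 1 * Z 1 = F 0 := by
    rw [Matrix.mul_assoc, (hZ 1).2.2, ← Matrix.mul_assoc, (hZ 1).1, Matrix.one_mul]
  -- the end values
  let q : Matrix κ κ ℂ := y₀ * W' 1 * x₁ * Z 1
  let q' : Matrix κ κ ℂ := Z' 1 * y₁ * W 1 * x₀
  have hq1 : F 0 * q = q := by
    simp only [q, ← Matrix.mul_assoc, hFy₀]
  have hq2 : q * F 0 = q := by
    simp only [q]
    rw [Matrix.mul_assoc, ← (hZ 1).2.2, ← Matrix.mul_assoc, Matrix.mul_assoc _ x₁, hx₁F]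
  have hq1' : q' * F 0 = q' := by
    simp only [q']
    rw [Matrix.mul_assoc, hx₀F]
  have hq2' : F 0 * q' = q' := by
    simp only [q']
    rw [← hFZ']
    calc Z' 1 * F 1 * Z 1 * (Z' 1 * y₁ * W 1 * x₀) = Z' 1 * F 1 * (Z 1 * Z' 1) * y₁ * W 1 * x₀ := by
          simp only [Matrix.mul_assoc]
      _ = Z' 1 * (F 1 * y₁) * W 1 * x₀ := by
          rw [(hZ 1).2.1, Matrix.mul_one]
          simp only [Matrix.mul_assoc]
      _ = Z' 1 * y₁ * W 1 * x₀ := by rw [hFy₁]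
  have hqq' : q * q' = F 0 := by
    simp only [q, q']
    calc y₀ * W' 1 * x₁ * Z 1 * (Z' 1 * y₁ * W 1 * x₀) = y₀ * W' 1 * x₁ * (Z 1 * Z' 1) * y₁ * W 1 * x₀ := by
          simp only [Matrix.mul_assoc]
      _ = y₀ * (W' 1 * (x₁ * y₁) * W 1) * x₀ := by
          rw [(hZ 1).2.1, Matrix.mul_one]
          simp only [Matrix.mul_assoc]
      _ = F 0 := by rw [hxy₁, hEW', hy₀E, hyx₀]
  have hq'q : q' * q = F 0 := by
    simp only [q, q']
    calc Z' 1 * y₁ * W 1 * x₀ * (y₀ * W' 1 * x₁ * Z 1) = Z' 1 * y₁ * (W 1 * (x₀ * y₀) * W' 1) * x₁ * Z 1 := by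
          simp only [Matrix.mul_assoc]
      _ = Z' 1 * (y₁ * x₁) * Z 1 := by
          rw [hxy₀, hEW, Matrix.mul_assoc (Z' 1) y₁, hy₁E]
          simp only [Matrix.mul_assoc]
      _ = F 0 := by rw [hyx₁, hFZ']
  have hu1 : (b * q * a) * (b * q' * a) = 1 := by
    calc (b * q * a) * (b * q' * a) = b * (q * (a * b)) * q' * a := by simp only [Matrix.mul_assoc]
      _ = b * (q * q') * a := by
          rw [hab, hq2]
          simp only [Matrix.mul_assoc]
      _ = 1 := by rw [hqq', hbF, hba]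
  have hu2 : (b * q' * a) * (b * q * a) = 1 := by
    calc (b * q' * a) * (b * q * a) = b * (q' * (a * b)) * q * a := by simp only [Matrix.mul_assoc]
      _ = b * (q' * q) * a := by
          rw [hab, hq1']
          simp only [Matrix.mul_assoc]
      _ = 1 := by rw [hq'q, hbF, hba]
  obtain ⟨γ, γ', hγ, hγ0, hγ'0, hγ1, hγ'1⟩ := BEX_path hGLC r _ _ hu1 hu2
  have hg1 : a * γ 1 * b = q := by
    rw [hγ1]
    calc a * (b * q * a) * b = (a * b) * q * (a * b) := by simp only [Matrix.mul_assoc]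
      _ = q := by rw [hab, hq1, hq2]
  have hg1' : a * γ' 1 * b = q' := by
    rw [hγ'1]
    calc a * (b * q' * a) * b = (a * b) * q' * (a * b) := by simp only [Matrix.mul_assoc]
      _ = q' := by rw [hab, hq2', hq1']
  have hg0 : a * γ 0 * b = F 0 := by rw [hγ0, Matrix.mul_one, hab]
  have hg0' : a * γ' 0 * b = F 0 := by rw [hγ'0, Matrix.mul_one, hab]
  have hgg : ∀ t, (a * γ t * b) * (a * γ' t * b) = F 0 := by
    intro t
    calc (a * γ t * b) * (a * γ' t * b) = a * γ t * (b * a) * γ' t * b := by simp only [Matrix.mul_assoc]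
      _ = a * (γ t * γ' t) * b := by
          rw [hba, Matrix.mul_one]
          simp only [Matrix.mul_assoc]
      _ = F 0 := by rw [(hγ t).1, Matrix.mul_one, hab]
  have hgF : ∀ t, (a * γ' t * b) * F 0 * (a * γ t * b) = F 0 := by
    intro t
    calc (a * γ' t * b) * F 0 * (a * γ t * b) = a * γ' t * ((b * F 0) * a) * γ t * b := by simp only [Matrix.mul_assoc]
      _ = a * (γ' t * γ t) * b := by
          rw [hbF, hba, Matrix.mul_one]
          simp only [Matrix.mul_assoc]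
      _ = F 0 := by rw [(hγ t).2, Matrix.mul_one, hab]
  have cW := map_continuous W
  have cW' := map_continuous W'
  have cZ := map_continuous Z
  have cZ' := map_continuous Z'
  have cγ := map_continuous γ
  have cγ' := map_continuous γ'
  refine ⟨⟨fun s => W s * x₀ * (a * γ s * b) * Z' s, ?_⟩, ⟨fun s => Z s * (a * γ' s * b) * y₀ * W' s, ?_⟩, ?_, ?_, ?_, ?_, ?_⟩
  · exact ((cW.matrix_mul continuous_const).matrix_mul ((continuous_const.matrix_mul cγ).matrix_mul continuous_const)).matrix_mul cZ'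
  · exact ((cZ.matrix_mul ((continuous_const.matrix_mul cγ').matrix_mul continuous_const)).matrix_mul continuous_const).matrix_mul cW'
  · change W 0 * x₀ * (a * γ 0 * b) * Z' 0 = x₀
    rw [hW0, hZ'0, hg0, Matrix.one_mul, Matrix.mul_one, hx₀F]
  · change W 1 * x₀ * (a * γ 1 * b) * Z' 1 = x₁
    rw [hg1]
    simp only [q]
    calc W 1 * x₀ * (y₀ * W' 1 * x₁ * Z 1) * Z' 1 = (W 1 * (x₀ * y₀) * W' 1) * x₁ * (Z 1 * Z' 1) := by
          simp only [Matrix.mul_assoc]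
      _ = x₁ := by rw [hxy₀, hEW, (hZ 1).2.1, Matrix.mul_one, hEx₁]
  · change Z 0 * (a * γ' 0 * b) * y₀ * W' 0 = y₀
    rw [hZ0, hW'0, hg0', Matrix.one_mul, Matrix.mul_one, hFy₀]
  · change Z 1 * (a * γ' 1 * b) * y₀ * W' 1 = y₁
    rw [hg1']
    simp only [q']
    calc Z 1 * (Z' 1 * y₁ * W 1 * x₀) * y₀ * W' 1 = (Z 1 * Z' 1) * y₁ * (W 1 * (x₀ * y₀) * W' 1) := by
          simp only [Matrix.mul_assoc]
      _ = y₁ := by rw [hxy₀, hEW, (hZ 1).2.1, Matrix.one_mul, hy₁E]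
  · intro s
    constructor
    · change W s * x₀ * (a * γ s * b) * Z' s * (Z s * (a * γ' s * b) * y₀ * W' s) = E s
      calc W s * x₀ * (a * γ s * b) * Z' s * (Z s * (a * γ' s * b) * y₀ * W' s)
          = W s * x₀ * (a * γ s * b) * (Z' s * Z s) * (a * γ' s * b) * y₀ * W' s := by
            simp only [Matrix.mul_assoc]
        _ = W s * (x₀ * ((a * γ s * b) * (a * γ' s * b))) * y₀ * W' s := by
            rw [(hZ s).1, Matrix.mul_one]
            simp only [Matrix.mul_assoc]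
        _ = W s * (x₀ * y₀) * W' s := by
            rw [hgg, hx₀F]
            simp only [Matrix.mul_assoc]
        _ = E s := by rw [hxy₀, hEW]
    · change Z s * (a * γ' s * b) * y₀ * W' s * (W s * x₀ * (a * γ s * b) * Z' s) = F s
      calc Z s * (a * γ' s * b) * y₀ * W' s * (W s * x₀ * (a * γ s * b) * Z' s)
          = Z s * (a * γ' s * b) * y₀ * (W' s * W s) * x₀ * (a * γ s * b) * Z' s := by
            simp only [Matrix.mul_assoc]
        _ = Z s * ((a * γ' s * b) * (y₀ * x₀) * (a * γ s * b)) * Z' s := by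
            rw [(hW s).1, Matrix.mul_one]
            simp only [Matrix.mul_assoc]
        _ = F s := by rw [hyx₀, hgF, hFZ]

end Pool.Agent.BND
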