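import Pool.Agent.helper77.BND.SpecB
import Pool.Agent.helper15.BND.BEX

/-!
# Project bnd (MP_376aaf_an), row BIX: interpolation of idempotents
-/

set_option autoImplicit false

open scoped Topology Matrix
open Filter Finset

namespace Pool.Agent.BND

open Pool.Agent.CZ Pool.Agent.PV

theorem BIX (hTRI : TRI_stmt) (hGLC : GLC_stmt) : BIX_stmt := by
  intro ι _ _ E₀ E₁ hE₀ hE₁ htr
  obtain ⟨r, x₀, y₀, ht₀, hxy₀, hyx₀⟩ := hTRI ι E₀ hE₀
  obtain ⟨r₁, x₁, y₁, ht₁, hxy₁, hyx₁⟩ := hTRI ι E₁ hE₁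
  have hr : r₁ = r := by
    have h1 : (r₁ : ℂ) = r := by rw [← ht₀, ← ht₁, htr]
    exact_mod_cast h1
  subst hr
  have hF₀ : (1 - E₀) * (1 - E₀) = 1 - E₀ := by
    rw [sub_mul, one_mul, mul_sub, mul_one, hE₀, sub_self, sub_zero]
  have hF₁ : (1 - E₁) * (1 - E₁) = 1 - E₁ := by
    rw [sub_mul, one_mul, mul_sub, mul_one, hE₁, sub_self, sub_zero]
  obtain ⟨r', x₀', y₀', ht₀', hxy₀', hyx₀'⟩ := hTRI ι (1 - E₀) hF₀
  obtain ⟨r₁', x₁', y₁', ht₁', hxy₁', hyx₁'⟩ := hTRI ι (1 - E₁) hF₁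
  have hr' : r₁' = r' := by
    have h1 : (r₁' : ℂ) = r' := by rw [← ht₀', ← ht₁', Matrix.trace_sub, Matrix.trace_sub, htr]
    exact_mod_cast h1
  subst hr'
  have key : ∀ (p q : ℕ) (e : Matrix ι ι ℂ) (x : Matrix ι (Fin p) ℂ) (y : Matrix (Fin p) ι ℂ)
      (x' : Matrix ι (Fin q) ℂ) (y' : Matrix (Fin q) ι ℂ), e * e = e → x * y = e → y * x = 1 →
      x' * y' = 1 - e → y' * x' = 1 → y * x' = 0 ∧ y' * x = 0 := by
    intro p q e x y x' y' he h1 h2 h3 h4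
    have h5 : e * (1 - e) = 0 := by rw [mul_sub, mul_one, he, sub_self]
    have h6 : (1 - e) * e = 0 := by rw [sub_mul, one_mul, he, sub_self]
    constructor
    · calc y * x' = (y * x) * (y * x') * (y' * x') := by rw [h2, h4, Matrix.one_mul, Matrix.mul_one]
        _ = y * ((x * y) * (x' * y')) * x' := by simp only [Matrix.mul_assoc]
        _ = 0 := by rw [h1, h3, h5, Matrix.mul_zero, Matrix.zero_mul]
    · calc y' * x = (y' * x') * (y' * x) * (y * x) := by rw [h2, h4, Matrix.one_mul, Matrix.mul_one]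
        _ = y' * ((x' * y') * (x * y)) * x := by simp only [Matrix.mul_assoc]
        _ = 0 := by rw [h1, h3, h6, Matrix.mul_zero, Matrix.zero_mul]
  obtain ⟨k1, k2⟩ := key _ _ E₀ x₀ y₀ x₀' y₀' hE₀ hxy₀ hyx₀ hxy₀' hyx₀'
  obtain ⟨k3, k4⟩ := key _ _ E₁ x₁ y₁ x₁' y₁' hE₁ hxy₁ hyx₁ hxy₁' hyx₁'
  let g : Matrix ι ι ℂ := x₁ * y₀ + x₁' * y₀'
  let g' : Matrix ι ι ℂ := x₀ * y₁ + x₀' * y₁'
  have hgg' : g * g' = 1 := by
    simp only [g, g', Matrix.add_mul, Matrix.mul_add]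
    have e1 : x₁ * y₀ * (x₀ * y₁) = E₁ := by
      rw [Matrix.mul_assoc, ← Matrix.mul_assoc y₀, hyx₀, Matrix.one_mul, hxy₁]
    have e2 : x₁' * y₀' * (x₀ * y₁) = 0 := by
      rw [Matrix.mul_assoc, ← Matrix.mul_assoc y₀', k2, Matrix.zero_mul, Matrix.mul_zero]
    have e3 : x₁ * y₀ * (x₀' * y₁') = 0 := by
      rw [Matrix.mul_assoc, ← Matrix.mul_assoc y₀, k1, Matrix.zero_mul, Matrix.mul_zero]
    have e4 : x₁' * y₀' * (x₀' * y₁') = 1 - E₁ := by
      rw [Matrix.mul_assoc, ← Matrix.mul_assoc y₀', hyx₀', Matrix.one_mul, hxy₁']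
    rw [e1, e2, e3, e4]
    abel
  have hg'g : g' * g = 1 := mul_eq_one_comm.mp hgg'
  have hconj : g * E₀ * g' = E₁ := by
    have e1 : g * E₀ = x₁ * y₀ := by
      simp only [g, Matrix.add_mul]
      rw [← hxy₀, Matrix.mul_assoc x₁, ← Matrix.mul_assoc y₀, hyx₀, Matrix.one_mul, Matrix.mul_assoc x₁',
        ← Matrix.mul_assoc y₀', k2, Matrix.zero_mul, Matrix.mul_zero, add_zero]
    rw [e1]
    simp only [g', Matrix.mul_add]
    rw [Matrix.mul_assoc, ← Matrix.mul_assoc y₀, hyx₀, Matrix.one_mul, hxy₁, Matrix.mul_assoc x₁,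
      ← Matrix.mul_assoc y₀, k1, Matrix.zero_mul, Matrix.mul_zero, add_zero]
  obtain ⟨δ, hδ, hδ0, hδ1⟩ := hGLC ι ⟨g, g', hgg', hg'g⟩
  let γ : C(unitInterval, Matrix ι ι ℂ) := ⟨fun t => δ (unitInterval.symm t), by fun_prop⟩
  obtain ⟨γ', hγ'⟩ := BEX_inv γ fun t => hδ _
  have e0 : γ 0 = 1 := by
    change δ (unitInterval.symm 0) = 1
    rw [unitInterval.symm_zero, hδ1]
    rfl
  have e1 : γ 1 = g := by
    change δ (unitInterval.symm 1) = g
    rw [unitInterval.symm_one, hδ0]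
  have e0' : γ' 0 = 1 := by
    have h3 := (hγ' 0).1
    rw [e0, one_mul] at h3
    exact h3
  have e1' : γ' 1 = g' := by
    have h3 := (hγ' 1).1
    rw [e1] at h3
    calc γ' 1 = (g' * g) * γ' 1 := by rw [hg'g, one_mul]
      _ = g' * (g * γ' 1) := by rw [mul_assoc]
      _ = g' := by rw [h3, mul_one]
  refine ⟨⟨fun t => γ t * E₀ * γ' t, ?_⟩, ?_, ?_, ?_⟩
  · exact ((map_continuous γ).matrix_mul continuous_const).matrix_mul (map_continuous γ')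
  · change γ 0 * E₀ * γ' 0 = E₀
    rw [e0, e0', one_mul, mul_one]
  · change γ 1 * E₀ * γ' 1 = E₁
    rw [e1, e1', hconj]
  · intro t
    change γ t * E₀ * γ' t * (γ t * E₀ * γ' t) = γ t * E₀ * γ' t
    calc γ t * E₀ * γ' t * (γ t * E₀ * γ' t) = γ t * E₀ * (γ' t * γ t) * E₀ * γ' t := by
          simp only [Matrix.mul_assoc]
      _ = γ t * (E₀ * E₀) * γ' t := by
          rw [(hγ' t).2, mul_one]
          simp only [Matrix.mul_assoc]
      _ = γ t * E₀ * γ' t := by rw [hE₀]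

end Pool.Agent.BND
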